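import Mathlib
import Pool.Agent.H22.FourAP.Norm
import Pool.Agent.H22.FourAP.Line

set_option autoImplicit false

namespace Pool.Agent.Results.MP_94d023_co.CubicThreshold

open MvPolynomial

/-- `A` contains no `x, x + d, x + 2d, x + 3d` with `d ≠ 0` -/
def Free4 {n : ℕ} (A : Finset (Fin n → ZMod 5)) : Prop :=
  ∀ x d : Fin n → ZMod 5, d ≠ 0 → x ∈ A → x + d ∈ A → x + 2 • d ∈ A → x + 3 • d ∈ A → False

/-- `P` maps `F_5^n` to `F_5^r` by polynomials of degree at most `D` -/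
def DegLE {n r : ℕ} (D : ℕ) (P : Fin r → MvPolynomial (Fin n) (ZMod 5)) : Prop :=
  ∀ j, (P j).totalDegree ≤ D

/-- the fibre of the map `P` over the value `y` -/
noncomputable def fibre {n r : ℕ} (P : Fin r → MvPolynomial (Fin n) (ZMod 5)) (y : Fin r → ZMod 5) :
    Finset (Fin n → ZMod 5) :=
  Finset.univ.filter (fun x => ∀ j, eval x (P j) = y j)

lemma mem_fibre {n r : ℕ} (P : Fin r → MvPolynomial (Fin n) (ZMod 5)) (y : Fin r → ZMod 5)
    (x : Fin n → ZMod 5) : x ∈ fibre P y ↔ ∀ j, eval x (P j) = y j := by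
  simp [fibre]

lemma part_one (n r : ℕ) (hn : n ≤ 6 * r) :
    ∃ P : Fin r → MvPolynomial (Fin n) (ZMod 5), DegLE 3 P ∧ ∀ y, Free4 (fibre P y) := by
  obtain ⟨P, hP, h⟩ := Pool.Agent.H22.FourAP.exists_cubic n r hn
  refine ⟨P, hP, ?_⟩
  intro y x d hd h0 h1 h2 h3
  rw [mem_fibre] at h0 h1 h2 h3
  exact hd (h x d (fun j => (h1 j).trans (h0 j).symm) (fun j => (h2 j).trans (h0 j).symm)
    (fun j => (h3 j).trans (h0 j).symm))

lemma part_three (n : ℕ) : ∃ A : Finset (Fin n → ZMod 5), Free4 A ∧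
    5 ^ (n - (n + 5) / 6) ≤ A.card := by
  classical
  obtain ⟨P, _, hF⟩ := part_one n ((n + 5) / 6) (by omega)
  have hle : Fintype.card (Fin ((n + 5) / 6) → ZMod 5) * 5 ^ (n - (n + 5) / 6)
      ≤ Fintype.card (Fin n → ZMod 5) := by
    rw [Fintype.card_fun, Fintype.card_fun, ZMod.card, Fintype.card_fin, Fintype.card_fin,
      ← pow_add]
    refine Nat.pow_le_pow_right (by norm_num) ?_
    have : (n + 5) / 6 ≤ n := by omega
    omega
  obtain ⟨y, hy⟩ := Fintype.exists_le_card_fiber_of_mul_le_card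
    (fun x : Fin n → ZMod 5 => fun j => eval x (P j)) hle
  refine ⟨fibre P y, hF y, hy.trans (le_of_eq ?_)⟩
  congr 1
  ext x
  simp only [Finset.mem_filter, Finset.mem_univ, true_and, mem_fibre]
  exact funext_iff

lemma part_four (c C : ℝ) (h : ∀ n : ℕ, ∀ A : Finset (Fin n → ZMod 5), Free4 A →
    (A.card : ℝ) ≤ C * ((5 : ℝ) ^ n) ^ (1 - c)) : c ≤ 1 / 6 := by
  by_contra hc
  rw [not_le] at hc
  have hb : (1 : ℝ) < (5 : ℝ) ^ (6 * c - 1) := Real.one_lt_rpow (by norm_num) (by linarith)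
  obtain ⟨m, hm⟩ := ((tendsto_pow_atTop_atTop_of_one_lt hb).eventually_gt_atTop C).exists
  obtain ⟨A, hA, hcard⟩ := part_three (6 * m)
  have h1 := h (6 * m) A hA
  have h2 : (5 : ℝ) ^ (5 * m) ≤ A.card := by
    have : 6 * m - (6 * m + 5) / 6 = 5 * m := by omega
    rw [this] at hcard
    exact_mod_cast hcard
  have h3 : ((5 : ℝ) ^ (6 * m)) ^ (1 - c) = (5 : ℝ) ^ (5 * m) / ((5 : ℝ) ^ (6 * c - 1)) ^ m := by
    rw [← Real.rpow_natCast, ← Real.rpow_mul (by norm_num), ← Real.rpow_natCast (5 : ℝ) (5 * m),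
      ← Real.rpow_natCast ((5 : ℝ) ^ (6 * c - 1)) m, ← Real.rpow_mul (by norm_num),
      ← Real.rpow_sub (by norm_num)]
    congr 1
    push_cast
    ring
  rw [h3] at h1
  have hpos : (0 : ℝ) < (5 : ℝ) ^ (5 * m) := by positivity
  have hpos2 : (0 : ℝ) < ((5 : ℝ) ^ (6 * c - 1)) ^ m := by positivity
  have h4 : (5 : ℝ) ^ (5 * m) ≤ C * ((5 : ℝ) ^ (5 * m) / ((5 : ℝ) ^ (6 * c - 1)) ^ m) :=
    h2.trans h1
  have h5 : ((5 : ℝ) ^ (6 * c - 1)) ^ m ≤ C := by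
    have h6 : C * ((5 : ℝ) ^ (5 * m) / ((5 : ℝ) ^ (6 * c - 1)) ^ m)
        = (5 : ℝ) ^ (5 * m) * (C / ((5 : ℝ) ^ (6 * c - 1)) ^ m) := by ring
    rw [h6] at h4
    have h7 : 1 ≤ C / ((5 : ℝ) ^ (6 * c - 1)) ^ m := by
      by_contra hcon
      rw [not_le] at hcon
      nlinarith
    rwa [le_div_iff₀ hpos2, one_mul] at h7
  linarith

/-- (1) lower bound; (2) every admissible exponent `c` of Q1 is at most `1/6`; (3) for cubic maps
to `F_5^r` all fibres can be free of 4-term progressions exactly when `n ≤ 6 r`; (4) for maps of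
degree at most `D`, if `2 n > r D (D + 1)` every fibre is a union of full lines. -/
theorem result :
    (∀ n : ℕ, ∃ A : Finset (Fin n → ZMod 5), Free4 A ∧ 5 ^ (n - (n + 5) / 6) ≤ A.card) ∧
    (∀ c C : ℝ, (∀ n : ℕ, ∀ A : Finset (Fin n → ZMod 5), Free4 A →
      (A.card : ℝ) ≤ C * ((5 : ℝ) ^ n) ^ (1 - c)) → c ≤ 1 / 6) ∧
    (∀ n r : ℕ, (∃ P : Fin r → MvPolynomial (Fin n) (ZMod 5), DegLE 3 P ∧
      ∃ y, (fibre P y).Nonempty ∧ Free4 (fibre P y)) ↔ n ≤ 6 * r) ∧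
    (∀ n r : ℕ, n ≤ 6 * r → ∃ P : Fin r → MvPolynomial (Fin n) (ZMod 5), DegLE 3 P ∧
      ∀ y, Free4 (fibre P y)) ∧
    (∀ n r D : ℕ, r * (D * (D + 1)) < 2 * n →
      ∀ P : Fin r → MvPolynomial (Fin n) (ZMod 5), DegLE D P → ∀ y, ∀ x ∈ fibre P y,
        ∃ d : Fin n → ZMod 5, d ≠ 0 ∧ ∀ t : ZMod 5, x + t • d ∈ fibre P y) := by
  have hline : ∀ n r D : ℕ, r * (D * (D + 1)) < 2 * n →
      ∀ P : Fin r → MvPolynomial (Fin n) (ZMod 5), DegLE D P → ∀ y, ∀ x ∈ fibre P y,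
        ∃ d : Fin n → ZMod 5, d ≠ 0 ∧ ∀ t : ZMod 5, x + t • d ∈ fibre P y := by
    intro n r D hn P hP y x hx
    obtain ⟨d, hd, h⟩ := Pool.Agent.H22.FourAP.full_line (K := ZMod 5) 5 D r hn P hP x
    refine ⟨d, hd, fun t => ?_⟩
    rw [mem_fibre] at hx ⊢
    exact fun j => (h t j).trans (hx j)
  refine ⟨part_three, part_four, ?_, part_one, hline⟩
  intro n r
  constructor
  · rintro ⟨P, hP, y, ⟨x, hx⟩, hfree⟩
    by_contra hn
    rw [not_le] at hn
    obtain ⟨d, hd, h⟩ := hline n r 3 (by omega) P hP y x hx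
    refine hfree x d hd hx ?_ ?_ ?_
    · simpa using h 1
    · have := h 2
      have e : (2 : ZMod 5) • d = 2 • d := by
        funext i; simp
      rwa [e] at this
    · have := h 3
      have e : (3 : ZMod 5) • d = 3 • d := by
        funext i; simp
      rwa [e] at this
  · intro hn
    obtain ⟨P, hP, hF⟩ := part_one n r hn
    exact ⟨P, hP, fun j => eval 0 (P j), ⟨0, by simp [mem_fibre]⟩, hF _⟩

end Pool.Agent.Results.MP_94d023_co.CubicThreshold
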